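import Pool.Agent.Lib.MP_866d96_co.Obstruction

/-!
A self-dual 4-polytope no realization of which is a linear image of its polar.
-/

namespace Pool.Agent.Results.MP_866d96_co.NoLinearPolarity

/-- `F` is a face of `P`: the set of points of `P` at which a linear inequality valid on `P` holds
with equality. With `a = 0` this includes the empty set and `P` itself. -/
def IsFace {d : ℕ} (P F : Set (EuclideanSpace ℝ (Fin d))) : Prop :=
  ∃ (a : EuclideanSpace ℝ (Fin d)) (c : ℝ),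
    (∀ x ∈ P, inner ℝ a x ≤ c) ∧ F = {x ∈ P | inner ℝ a x = c}

/-- The polar of `A`. -/
def polar {d : ℕ} (A : Set (EuclideanSpace ℝ (Fin d))) : Set (EuclideanSpace ℝ (Fin d)) :=
  {x | ∀ a ∈ A, inner ℝ x a ≤ (1 : ℝ)}

lemma isFace_eq : @IsFace 4 = IsExposed ℝ := by
  funext P F
  refine propext ⟨?_, fun h => ?_⟩
  · rintro ⟨a, c, h1, rfl⟩ ⟨x₀, hx₀, e₀⟩
    refine ⟨innerSL ℝ a, Set.ext fun x => ⟨fun hx => ⟨hx.1, fun y hy => ?_⟩, fun hx => ⟨hx.1, ?_⟩⟩⟩
    · simp only [innerSL_apply_apply]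
      rw [hx.2]
      exact h1 y hy
    · have h2 := hx.2 x₀ hx₀
      simp only [innerSL_apply_apply] at h2
      rw [e₀] at h2
      exact le_antisymm (h1 x hx.1) h2
  · rcases F.eq_empty_or_nonempty with rfl | ⟨x₀, hx₀⟩
    · exact ⟨0, 1, by simp, by simp⟩
    · obtain ⟨l, hl⟩ := h ⟨x₀, hx₀⟩
      have ha : ∀ x, inner ℝ ((InnerProductSpace.toDual ℝ _).symm l) x = l x := fun x =>
        InnerProductSpace.toDual_symm_apply
      have h0 : x₀ ∈ P ∧ ∀ y ∈ P, l y ≤ l x₀ := by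
        rw [hl] at hx₀
        exact hx₀
      refine ⟨(InnerProductSpace.toDual ℝ _).symm l, l x₀, fun x hx => ?_, ?_⟩
      · rw [ha]
        exact h0.2 x hx
      · rw [hl]
        ext x
        simp only [ha, Set.mem_ofPred_eq]
        exact ⟨fun hx => ⟨hx.1, le_antisymm (h0.2 x hx.1) (hx.2 x₀ h0.1)⟩,
          fun hx => ⟨hx.1, fun y hy => hx.2 ▸ h0.2 y hy⟩⟩

open Pool.Agent.Lib.MP_866d96_co in
lemma not_linear_polar {q y : Fin 38 → E} (h : Rz inc q y fun _ => 1) {Q : Set E}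
    (hq : ∀ i, q i ∈ Q) (hy : ∀ j, ∀ x ∈ Q, inner ℝ x (y j) ≤ 1)
    (U : E ≃ₗ[ℝ] E) (hU : {z : E | ∀ x ∈ Q, inner ℝ x z ≤ (1 : ℝ)} = U '' Q) : False := by
  let A : E →ₗ[ℝ] E := LinearMap.adjoint (U : E →ₗ[ℝ] E)
  let B : E →ₗ[ℝ] E := LinearMap.adjoint (U.symm : E →ₗ[ℝ] E)
  have hA : ∀ x z : E, inner ℝ (A x) z = inner ℝ x (U z) := fun x z =>
    LinearMap.adjoint_inner_left _ _ _
  have hB : ∀ x z : E, inner ℝ (U x) (B z) = inner ℝ x z := fun x z => by
    rw [LinearMap.adjoint_inner_right]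
    simp
  have hT : Rz (fun j i => inc i j) y q fun _ => 1 :=
    ⟨fun j i => by rw [real_inner_comm]; exact h.le i j,
      fun j i => by rw [real_inner_comm]; exact h.eq i j⟩
  have cQ : ∀ {q' y' : Fin 38 → E}, Rz inc q' y' (fun _ => 1) → ∀ x : E,
      (∀ j, inner ℝ x (y' j) ≤ 1) → x ∈ convexHull ℝ (Set.range q') :=
    fun h' => h'.complete mask _ chk_mask (fun _ _ => Iff.rfl)
  have cP : ∀ z : E, (∀ x ∈ Q, inner ℝ x z ≤ 1) → z ∈ convexHull ℝ (Set.range y) :=
    fun z hz => hT.complete maskT _ chk_maskT (fun i j => maskT_eq j i) z fun i => by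
      rw [real_inner_comm]
      exact hz _ (hq i)
  have hUQ : ∀ x ∈ Q, ∀ x' ∈ Q, inner ℝ x' (U x) ≤ 1 := fun x hx => by
    have : U x ∈ {z : E | ∀ x ∈ Q, inner ℝ x z ≤ (1 : ℝ)} := hU ▸ ⟨x, hx, rfl⟩
    exact this
  have hyU : ∀ j, ∃ x ∈ Q, U x = y j := fun j => by
    have : y j ∈ U '' Q := hU ▸ hy j
    exact this
  have h1 : Rz inc (fun i => U (q i)) (fun j => B (y j)) fun _ => 1 :=
    ⟨fun i j => by rw [hB]; exact h.le i j, fun i j => by rw [hB]; exact h.eq i j⟩
  have h2 : Rz inc (fun i => A (q i)) (fun j => U.symm (y j)) fun _ => 1 :=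
    ⟨fun i j => by rw [hA, U.apply_symm_apply]; exact h.le i j,
      fun i j => by rw [hA, U.apply_symm_apply]; exact h.eq i j⟩
  have hα : ∀ i, ∃ k, y k = U (q i) := fun i =>
    h1.vertex_mem vert_sep (s := y) (fun k => cQ h1 _ fun j => by
      obtain ⟨x, hx, e⟩ := hyU k
      rw [← e, hB]
      exact hy j x hx) i (cP _ (hUQ _ (hq i)))
  have hβ : ∀ i, ∃ k, y k = A (q i) := fun i =>
    h2.vertex_mem vert_sep (s := y) (fun k => cQ h2 _ fun j => by
      obtain ⟨x, hx, e⟩ := hyU j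
      rw [← e, U.symm_apply_apply, real_inner_comm]
      exact hy k x hx) i (cP _ fun x hx => by
        rw [real_inner_comm, hA]
        exact hUQ x hx _ (hq i))
  choose α hα using hα
  choose β hβ using hβ
  have hαb : Function.Bijective α := Finite.injective_iff_bijective.1 fun a b hab =>
    h1.injective vert_sep (by simp only [← hα, hab])
  have hβb : Function.Bijective β := Finite.injective_iff_bijective.1 fun a b hab =>
    h2.injective vert_sep (by simp only [← hβ, hab])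
  have rel : ∀ i k, inner ℝ (q i) (y (α k)) = inner ℝ (q k) (y (β i)) := by
    intro i k
    rw [hα, hβ, ← hA, real_inner_comm]
  have hd := dual_cases α β hαb hβb fun i k => by rw [← h.eq, ← h.eq, rel]
  have fin : ∀ k, α k = 2 → β k = 3 → ∀ i, α i = β i →
      inner ℝ (q i) (y 2) = inner ℝ (q i) (y 3) := by
    intro k e2 e3 i ei
    rw [← e2, ← e3, rel, ← ei, rel]
  rcases hd with ⟨rfl, rfl⟩ | ⟨rfl, rfl⟩
  · exact obstruction h (fin 13 (by decide) (by decide) 4 (by decide))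
      (fin 13 (by decide) (by decide) 6 (by decide)) (fin 13 (by decide) (by decide) 9 (by decide))
  · exact obstruction h (fin 12 (by decide) (by decide) 4 (by decide))
      (fin 12 (by decide) (by decide) 6 (by decide)) (fin 12 (by decide) (by decide) 9 (by decide))

open Pool.Agent.Lib.MP_866d96_co in
theorem result : ∃ (S : Finset (EuclideanSpace ℝ (Fin 4))) (P : Set (EuclideanSpace ℝ (Fin 4))),
    P = convexHull ℝ (S : Set (EuclideanSpace ℝ (Fin 4))) ∧ S.card = 38 ∧
    Set.extremePoints ℝ P = S ∧ (interior P).Nonempty ∧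
    Nonempty ({F // IsFace P F} ≃o {F // IsFace P F}ᵒᵈ) ∧
    ∀ Q : Set (EuclideanSpace ℝ (Fin 4)), 0 ∈ interior Q →
      Nonempty ({F // IsFace P F} ≃o {F // IsFace Q F}) →
      ∀ U : EuclideanSpace ℝ (Fin 4) ≃ₗ[ℝ] EuclideanSpace ℝ (Fin 4), Q ≠ U '' polar Q := by
  classical
  have hS : ((Finset.univ.image pP : Finset E) : Set E) = Set.range pP := by simp
  have hH := rzP.complete mask _ chk_mask (fun _ _ => Iff.rfl)
  rw [isFace_eq]
  refine ⟨Finset.univ.image pP, convexHull ℝ (Set.range pP), by rw [hS], ?_, ?_,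
    rzP.interior_nonempty hH fac_off,
    rzP.self_dual hH vert_off s0 s1 dual01 s0_surj s1_surj, ?_⟩
  · rw [Finset.card_image_of_injective _ (rzP.injective vert_sep)]
    simp
  · rw [hS]
    refine Set.Subset.antisymm extremePoints_convexHull_subset ?_
    rintro _ ⟨i, rfl⟩
    refine exposedPoints_subset_extremePoints (mem_exposedPoints_iff_exposed_singleton.2 ?_)
    have e : face pP nP (fun j => (fac j 0 : ℝ)) (inc i) = {pP i} :=
      Set.eq_singleton_iff_unique_mem.2 ⟨(rzP.mem_face _ i).2 fun j hj => hj,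
        fun x hx => rzP.vertex vert_sep i hx.1 hx.2⟩
    rw [← e]
    exact rzP.face_exposed _
  · rintro Q h0 ⟨ψ⟩ U hU
    obtain ⟨q, y, h, hq, hy⟩ := rzP.transfer vert_sep fac_off fac_on h0 ψ
    refine not_linear_polar h hq hy U.symm ?_
    have e : {z : E | ∀ x ∈ Q, inner ℝ x z ≤ (1 : ℝ)} = polar Q := by
      ext z
      simp only [polar, Set.mem_ofPred_eq, real_inner_comm z]
    rw [e]
    conv_rhs => rw [hU]
    rw [← Set.image_comp]
    simp

end Pool.Agent.Results.MP_866d96_co.NoLinearPolarity
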